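import Pool.Agent.W21.RV.All

/-!
`N - p` with at most five large prime factors, `p` in an arbitrary dense set of primes of size about
`√N`, for all but boundedly many `N` in every dyadic interval.
-/

set_option autoImplicit false

namespace Pool.Agent.Results.MP_b454d1_nt.DenseSetsFivePrimes

/-- the `p ∈ A` with `|N - p| = m s`, `m ≤ X^ε`, `s > 1` a product of at most five primes, all
`≥ X^(1/8)` -/
def good (A : Finset ℕ) (N : ℤ) (X : ℕ) (ε : ℝ) : Set ℕ :=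
  {p : ℕ | p ∈ A ∧ ∃ m s : ℕ, (N - (p : ℤ)).natAbs = m * s ∧ (m : ℝ) ≤ (X : ℝ) ^ ε ∧ 1 < s ∧
    s.primeFactorsList.length ≤ 5 ∧ ∀ q : ℕ, q.Prime → q ∣ s → (X : ℝ) ^ (1 / 8 : ℝ) ≤ q}

/-- the `p ∈ A` with `N = p + m s`, `m ≤ Y^ε`, `s > 1` a product of at most five primes, all
`≥ Y^(1/16)` -/
def goodR (A : Finset ℕ) (N Y : ℕ) (ε : ℝ) : Set ℕ :=
  {p : ℕ | p ∈ A ∧ ∃ m s : ℕ, N = p + m * s ∧ (m : ℝ) ≤ (Y : ℝ) ^ ε ∧ 1 < s ∧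
    s.primeFactorsList.length ≤ 5 ∧ ∀ q : ℕ, q.Prime → q ∣ s → (Y : ℝ) ^ (1 / 16 : ℝ) ≤ q}

/-- (1) For all `δ, ε > 0` there are `c > 0` and `K` such that, for every `Y ≥ 2` and every set `A`
of primes `p` with `√(2Y) < p < 4√Y` with at least `δ √Y / log Y` elements: every `p ∈ A` lies in
`(√N, 4√N)` for every `N ∈ [Y, 2Y]`, and for all but at most `K` of the `N ∈ [Y, 2Y]` at least
`c |A|` of the `p ∈ A` are such that `N - p = m s` with `m ≤ Y^ε` and `s > 1` a product of at most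
five primes `≥ Y^(1/16)`.  (2) The same for every `X ≥ 2`, every set `A` of at least `δ X / log X`
primes up to `X` and all but at most `K` of the integers `N` with `|N| ≤ X²`. -/
theorem result :
    (∀ δ ε : ℝ, 0 < δ → 0 < ε → ∃ (c : ℝ) (K : ℕ), 0 < c ∧ ∀ Y : ℕ, 2 ≤ Y → ∀ A : Finset ℕ,
      (∀ p ∈ A, p.Prime ∧ Real.sqrt (2 * Y) < p ∧ (p : ℝ) < 4 * Real.sqrt Y) →
      δ * Real.sqrt Y / Real.log Y ≤ A.card →
      (∀ N : ℕ, Y ≤ N → N ≤ 2 * Y → ∀ p ∈ A, Real.sqrt N < p ∧ (p : ℝ) < 4 * Real.sqrt N) ∧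
      {N : ℕ | Y ≤ N ∧ N ≤ 2 * Y ∧ ((goodR A N Y ε).ncard : ℝ) < c * A.card}.ncard ≤ K) ∧
    (∀ δ ε : ℝ, 0 < δ → 0 < ε → ∃ (c : ℝ) (K : ℕ), 0 < c ∧ ∀ X : ℕ, 2 ≤ X → ∀ A : Finset ℕ,
      (∀ p ∈ A, p.Prime ∧ p ≤ X) → δ * X / Real.log X ≤ A.card →
      {N : ℤ | |N| ≤ (X : ℤ) ^ 2 ∧ ((good A N X ε).ncard : ℝ) < c * A.card}.ncard ≤ K) := by
  have hm := Pool.Agent.W21.RV.main_thm
  refine ⟨?_, hm⟩
  intro δ ε hδ hε
  obtain ⟨c, K, hc, H⟩ := Pool.Agent.W21.RV.window hm δ ε hδ hε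
  refine ⟨c, K, hc, ?_⟩
  intro Y hY A hA hAc
  refine ⟨?_, H Y hY A (fun p hp => ⟨(hA p hp).1, (hA p hp).2.2⟩) hAc⟩
  intro N h1 h2 p hp
  obtain ⟨_, h3, h4⟩ := hA p hp
  have hN1 : (Y : ℝ) ≤ N := by exact_mod_cast h1
  have hN2 : (N : ℝ) ≤ 2 * Y := by exact_mod_cast h2
  exact ⟨lt_of_le_of_lt (Real.sqrt_le_sqrt hN2) h3,
    lt_of_lt_of_le h4 (mul_le_mul_of_nonneg_left (Real.sqrt_le_sqrt hN1) (by norm_num))⟩

end Pool.Agent.Results.MP_b454d1_nt.DenseSetsFivePrimes
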