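import Pool.Agent.W23.SG.All2

/-!
Almost prime values of `N - p`, `√N < p < 4√N`, for `p` in an arbitrary, possibly sparse, set of
primes; more generally of `N - d p`, `|N| ≤ X^g`, `1 ≤ d ≤ X^(g-1)`, `g ≤ 2`.
-/

set_option autoImplicit false

namespace Pool.Agent.Results.MP_b454d1_nt.WindowsSparseSets

/-- the `p ∈ A`, `N - d p ≠ 0`, such that `|N - d p| = m s`, all prime factors of `m` are smaller
than `X^ε`, and `s` is a product of at most `r` primes, each at least `X^(1/8)` -/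
def good (A : Finset ℕ) (N : ℤ) (d r X : ℕ) (ε : ℝ) : Set ℕ :=
  {p : ℕ | p ∈ A ∧ N - d * p ≠ 0 ∧ ∃ m s : ℕ, (N - d * (p : ℤ)).natAbs = m * s ∧
    (∀ l : ℕ, l.Prime → l ∣ m → (l : ℝ) < (X : ℝ) ^ ε) ∧ s.primeFactorsList.length ≤ r ∧
    ∀ l : ℕ, l.Prime → l ∣ s → (X : ℝ) ^ (1 / 8 : ℝ) ≤ l}

/-- the `p ∈ A` in the window `√N < p < 4√N` such that `N - p ≠ 0`, `|N - p| = m s`, all prime
factors of `m` are smaller than `X^ε`, and `s` is a product of at most five primes, each at least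
`X^(1/8)` -/
def window (A : Finset ℕ) (N X : ℕ) (ε : ℝ) : Set ℕ :=
  {p : ℕ | p ∈ A ∧ Real.sqrt N < p ∧ (p : ℝ) < 4 * Real.sqrt N ∧ p ∈ good A N 1 5 X ε}

theorem general (ε g : ℝ) (r : ℕ) (hε : 0 < ε) (hg1 : 1 ≤ g) (hg2 : g ≤ 2)
    (hgr : g < 9 / 20 * ((r : ℝ) - 1 / 29)) :
    ∃ c C η : ℝ, 0 < c ∧ 0 < η ∧ ∀ X : ℕ, 2 ≤ X → ∀ A : Finset ℕ, (∀ p ∈ A, p.Prime ∧ p ≤ X) →
      (X : ℝ) ^ (1 - η) ≤ A.card → ∀ E : Finset (ℤ × ℕ),
      (E : Set (ℤ × ℕ)) ⊆ {P : ℤ × ℕ | Int.gcd P.1 P.2 = 1 ∧ |(P.1 : ℝ)| ≤ (X : ℝ) ^ g ∧ 1 ≤ P.2 ∧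
          (P.2 : ℝ) ≤ (X : ℝ) ^ (g - 1) ∧
          ((good A P.1 P.2 r X ε).ncard : ℝ) < c * A.card} →
        (E.card : ℝ) ≤ C * (X / (A.card * Real.log X)) := by
  classical
  obtain ⟨c, C, η, hc, hη, h⟩ := Pool.Agent.W23.SG.linear_forms_g ε g r hε hg1 hg2 hgr
  refine ⟨c, C, η, hc, hη, ?_⟩
  intro X hX Q hQ hQc E hE
  set φ : ℤ × ℕ → ℤ × ℕ := fun P => (-P.1, P.2) with hφ
  have hinj : Function.Injective φ := by
    rintro ⟨a, b⟩ ⟨a', b'⟩ h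
    simp only [hφ, Prod.mk.injEq, neg_inj] at h
    rw [h.1, h.2]
  have hcard : (E.image φ).card = E.card := Finset.card_image_of_injective _ hinj
  rw [← hcard]
  apply h X hX Q hQ hQc
  intro P hP
  obtain ⟨P', hP', rfl⟩ := Finset.mem_image.1 hP
  obtain ⟨h1, h2, h3, h4, h5⟩ := hE (Finset.mem_coe.2 hP')
  refine ⟨by simpa [hφ, Int.gcd_neg] using h1, by simpa [hφ] using h2, h3, h4,
    lt_of_le_of_lt ?_ h5⟩
  rw [← Set.ncard_coe_finset]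
  have hfin : (good Q P'.1 P'.2 r X ε).Finite := Q.finite_toSet.subset fun p hp => hp.1
  refine Nat.cast_le.2 (Set.ncard_le_ncard ?_ hfin)
  intro q hq
  rw [Finset.mem_coe, Finset.mem_filter] at hq
  obtain ⟨hqQ, hq0, m, s, e1, e2, e3, e4⟩ := hq
  simp only [hφ] at hq0 e1
  have hval : P'.1 - (P'.2 : ℤ) * q = -(-P'.1 + (P'.2 : ℤ) * q) := by ring
  have hs : s ≠ 0 := by
    rintro rfl
    rw [mul_zero, Int.natAbs_eq_zero] at e1
    exact hq0 e1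
  refine ⟨hqQ, ?_, m, s, ?_, e2, e3, fun l hl hls => e4 l (Nat.mem_primeFactors.2 ⟨hl, hls, hs⟩)⟩
  · rw [hval]
    exact neg_ne_zero.2 hq0
  · rw [hval, Int.natAbs_neg]
    exact e1

/-- (1) For every `ε > 0` there are `c, η > 0` and `C` such that for every `Y ≥ 1` and every set `A`
of primes `p` with `√2 Y < p < 4 Y`, `|A| ≥ (4Y)^(1-η)`, for all but at most
`C 4Y / (|A| log 4Y)` integers `N` with `Y² ≤ N ≤ 2Y²` at least `c |A|` of the `p ∈ A` are such that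
`√N < p < 4√N` and `0 ≠ |N - p| = m s`, where all prime factors of `m` are smaller than `(4Y)^ε` and
`s` is a product of at most five primes, each at least `(4Y)^(1/8)`.
(2) The same, for every set `A` of primes `p ≤ X`, for `N - d p` and the coprime pairs `(N, d)` with
`|N| ≤ X^g`, `1 ≤ d ≤ X^(g-1)`, where `4/3 < g ≤ 2` and `s` is a product of at most `r` primes,
provided that `g < (9/20) (r - 1/29)`. -/
theorem result (ε : ℝ) (hε : 0 < ε) :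
    (∃ c C η : ℝ, 0 < c ∧ 0 < η ∧ ∀ Y : ℕ, 1 ≤ Y → ∀ A : Finset ℕ,
      (∀ p ∈ A, p.Prime ∧ Real.sqrt 2 * Y < p ∧ p < 4 * Y) →
      ((4 * Y : ℕ) : ℝ) ^ (1 - η) ≤ A.card →
      ({N : ℕ | Y ^ 2 ≤ N ∧ N ≤ 2 * Y ^ 2 ∧
          ((window A N (4 * Y) ε).ncard : ℝ) < c * A.card}.ncard : ℝ) ≤
        C * ((4 * Y : ℕ) / (A.card * Real.log (4 * Y : ℕ)))) ∧
    ∀ (g : ℝ) (r : ℕ), 4 / 3 < g → g ≤ 2 → g < 9 / 20 * ((r : ℝ) - 1 / 29) →
    ∃ c C η : ℝ, 0 < c ∧ 0 < η ∧ ∀ X : ℕ, 2 ≤ X → ∀ A : Finset ℕ, (∀ p ∈ A, p.Prime ∧ p ≤ X) →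
      (X : ℝ) ^ (1 - η) ≤ A.card →
      ({P : ℤ × ℕ | Int.gcd P.1 P.2 = 1 ∧ |(P.1 : ℝ)| ≤ (X : ℝ) ^ g ∧ 1 ≤ P.2 ∧
          (P.2 : ℝ) ≤ (X : ℝ) ^ (g - 1) ∧
          ((good A P.1 P.2 r X ε).ncard : ℝ) < c * A.card}.ncard : ℝ) ≤
        C * (X / (A.card * Real.log X)) := by
  classical
  refine ⟨?_, ?_⟩
  · obtain ⟨c, C, η, hc, hη, h⟩ := general ε 2 5 hε (by norm_num) le_rfl (by norm_num)
    refine ⟨c, C, η, hc, hη, ?_⟩
    intro Y hY A hA hAc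
    have hA' : ∀ p ∈ A, p.Prime ∧ p ≤ 4 * Y := fun p hp => ⟨(hA p hp).1, (hA p hp).2.2.le⟩
    have hY0 : (0 : ℝ) < Y := by exact_mod_cast hY
    set S : Set ℕ := {N : ℕ | Y ^ 2 ≤ N ∧ N ≤ 2 * Y ^ 2 ∧
          ((window A N (4 * Y) ε).ncard : ℝ) < c * A.card} with hS
    have hfin : S.Finite := (Set.finite_Iic (2 * Y ^ 2)).subset fun N hN => hN.2.1
    rw [Set.ncard_eq_toFinset_card S hfin]
    set φ : ℕ → ℤ × ℕ := fun N => ((N : ℤ), 1) with hφ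
    have hinj : Function.Injective φ := by
      intro a b hab
      simp only [hφ, Prod.mk.injEq, Nat.cast_inj] at hab
      exact hab.1
    rw [← Finset.card_image_of_injective hfin.toFinset hinj]
    refine h (4 * Y) (by omega) A hA' hAc _ ?_
    intro P hP
    rw [Finset.mem_coe, Finset.mem_image] at hP
    obtain ⟨N, hN, rfl⟩ := hP
    rw [Set.Finite.mem_toFinset] at hN
    obtain ⟨hN1, hN2, hN3⟩ := hN
    have hN1' : (Y : ℝ) ^ 2 ≤ N := by exact_mod_cast hN1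
    have hN2' : (N : ℝ) ≤ 2 * (Y : ℝ) ^ 2 := by exact_mod_cast hN2
    refine ⟨by simp [hφ], ?_, le_rfl, ?_, lt_of_le_of_lt ?_ hN3⟩
    · simp only [hφ]
      push_cast
      rw [abs_of_nonneg (Nat.cast_nonneg N), Real.rpow_two]
      nlinarith
    · simp only [hφ]
      push_cast
      have : (1 : ℝ) ≤ 4 * Y := by
        have : (1 : ℝ) ≤ Y := by exact_mod_cast hY
        linarith
      exact Real.one_le_rpow this (by norm_num)
    · refine Nat.cast_le.2 (Set.ncard_le_ncard ?_ (A.finite_toSet.subset fun p hp => hp.1))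
      intro p hp
      have hpA := hA p hp.1
      refine ⟨hp.1, ?_, ?_, ?_⟩
      · calc Real.sqrt N ≤ Real.sqrt (2 * (Y : ℝ) ^ 2) := Real.sqrt_le_sqrt hN2'
          _ = Real.sqrt 2 * Y := by
              rw [Real.sqrt_mul (by norm_num), Real.sqrt_sq hY0.le]
          _ < p := hpA.2.1
      · have h1 : (p : ℝ) < 4 * Y := by exact_mod_cast hpA.2.2
        have h2 : (Y : ℝ) ≤ Real.sqrt N := by
          rw [← Real.sqrt_sq hY0.le]
          exact Real.sqrt_le_sqrt hN1'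
        linarith
      · exact hp
  · intro g r hg1 hg2 hgr
    obtain ⟨c, C, η, hc, hη, h⟩ := general ε g r hε (by linarith) hg2 hgr
    refine ⟨c, C, η, hc, hη, ?_⟩
    intro X hX A hA hAc
    set S : Set (ℤ × ℕ) := {P : ℤ × ℕ | Int.gcd P.1 P.2 = 1 ∧ |(P.1 : ℝ)| ≤ (X : ℝ) ^ g ∧ 1 ≤ P.2 ∧
      (P.2 : ℝ) ≤ (X : ℝ) ^ (g - 1) ∧ ((good A P.1 P.2 r X ε).ncard : ℝ) < c * A.card} with hS
    by_cases hfin : S.Finite
    · have h1 := h X hX A hA hAc hfin.toFinset (by rw [hfin.coe_toFinset])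
      rw [Set.ncard_eq_toFinset_card S hfin]
      exact h1
    · rw [Set.Infinite.ncard hfin]
      have := h X hX A hA hAc ∅ (by simp)
      simpa using this

end Pool.Agent.Results.MP_b454d1_nt.WindowsSparseSets
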